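import Mathlib
import Pool.Agent.Lib.MP_cfe824_nt.Family

set_option autoImplicit false

namespace Pool.Agent.Lib.MP_cfe824_nt.Old.FiveCurves

open Pool.Agent.Lib.MP_cfe824_nt

/-- The Mordell curve y^2 = x^3 + b over the rationals
(Weierstrass coefficients a1 = a2 = a3 = a4 = 0, a6 = b). -/
def E (b : ℤ) : WeierstrassCurve ℚ := ⟨0, 0, 0, 0, (b : ℚ)⟩

/-- The rank of the Mordell-Weil group of E b, as the rank of a module over the integers. -/
noncomputable def rk (b : ℤ) : Cardinal := Module.rank ℤ (E b).toAffine.Point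

lemma rk_pos_iff (b : ℤ) : 0 < rk b ↔ Good (b : ℚ) := rank_pos_iff (b : ℚ)

/-- For every nonzero integer `Q` there are infinitely many sixth-power-free integers `a` such
that `E (a * Q ^ i)` has positive rank for all `i` not congruent to five modulo six. -/
theorem result (Q : ℤ) (hQ : Q ≠ 0) :
    {a : ℤ | (∀ s : ℤ, s ^ 6 ∣ a → IsUnit s) ∧
      ∀ i : ℕ, i % 6 ≠ 5 → 0 < rk (a * Q ^ i)}.Infinite := by
  refine (fam 2 (by norm_num) (by norm_num) (by norm_num) Q hQ).mono fun a ha =>
    ⟨ha.1, fun i hi => ?_⟩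
  rw [rk_pos_iff]
  exact_mod_cast ha.2 i (Or.inl hi)

end Pool.Agent.Lib.MP_cfe824_nt.Old.FiveCurves
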