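import Mathlib
import Pool.Agent.Lib.MP_cfe824_nt.Family

set_option autoImplicit false

namespace Pool.Agent.Lib.MP_cfe824_nt.Old.SixCurves

open Pool.Agent.Lib.MP_cfe824_nt

/-- The Mordell curve y^2 = x^3 + b over the rationals
(Weierstrass coefficients a1 = a2 = a3 = a4 = 0, a6 = b). -/
def E (b : ℤ) : WeierstrassCurve ℚ := ⟨0, 0, 0, 0, (b : ℚ)⟩

/-- The rank of the Mordell-Weil group of E b, as the rank of a module over the integers. -/
noncomputable def rk (b : ℤ) : Cardinal := Module.rank ℤ (E b).toAffine.Point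

lemma rk_pos_iff (b : ℤ) : 0 < rk b ↔ Good (b : ℚ) := rank_pos_iff (b : ℚ)

lemma full (Q : ℤ) (hQ : Q ≠ 0) (x y : ℚ) (hx : x ≠ 0) (hy : y ≠ 0) (hxy : x ≠ y)
    (h : x ^ 3 + y ^ 3 = 2 * Q) : {a : ℤ | (∀ s : ℤ, s ^ 6 ∣ a → IsUnit s) ∧
      ∀ i : ℕ, Good ((a : ℚ) * (Q : ℚ) ^ i)}.Infinite := by
  have hQ' : (Q : ℚ) ≠ 0 := by exact_mod_cast hQ
  refine (fam (-x / y) (div_ne_zero (neg_ne_zero.2 hx) hy) (fun c => hQ' ?_) (fun c => hxy ?_)
    Q hQ).mono fun a ha => ⟨ha.1, fun i => ha.2 i (Or.inr ⟨-y / 2, ?_⟩)⟩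
  · field_simp at c; linarith
  · field_simp at c
    exact (Odd.strictMono_pow (by decide : Odd 3)).injective (show x ^ 3 = y ^ 3 by linarith)
  · field_simp; linarith

/-- If `Q` is a nonzero integer and `2 Q ^ e` is a sum of the cubes of two distinct nonzero
rationals for an exponent `e` not divisible by three, then there are infinitely many
sixth-power-free integers `a` such that `E (a * Q ^ i)` has positive rank for all `i`. -/
theorem result (Q : ℤ) (hQ : Q ≠ 0) (e : ℕ) (he : ¬ 3 ∣ e) (x y : ℚ) (hx : x ≠ 0) (hy : y ≠ 0)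
    (hxy : x ≠ y) (h : x ^ 3 + y ^ 3 = 2 * (Q : ℚ) ^ e) :
    {a : ℤ | (∀ s : ℤ, s ^ 6 ∣ a → IsUnit s) ∧ ∀ i : ℕ, 0 < rk (a * Q ^ i)}.Infinite := by
  have hQ' : (Q : ℚ) ≠ 0 := by exact_mod_cast hQ
  obtain ⟨k, hk | hk⟩ : ∃ k : ℕ, e = 3 * k + 1 ∨ e = 3 * k + 2 := ⟨e / 3, by omega⟩
  · subst hk
    have hk : (Q : ℚ) ^ k ≠ 0 := pow_ne_zero _ hQ'
    refine (full Q hQ (x / (Q : ℚ) ^ k) (y / (Q : ℚ) ^ k) (div_ne_zero hx hk) (div_ne_zero hy hk)
      (fun c => hxy ((div_left_inj' hk).1 c)) ?_).mono fun a ha => ⟨ha.1, fun i => ?_⟩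
    · field_simp
      linear_combination h
    · rw [rk_pos_iff]
      exact_mod_cast ha.2 i
  · subst hk
    have hk : (Q : ℚ) ^ k ≠ 0 := pow_ne_zero _ hQ'
    refine (full (Q ^ 5) (pow_ne_zero 5 hQ) (x * Q / (Q : ℚ) ^ k) (y * Q / (Q : ℚ) ^ k)
      (div_ne_zero (mul_ne_zero hx hQ') hk) (div_ne_zero (mul_ne_zero hy hQ') hk)
      (fun c => hxy (mul_right_cancel₀ hQ' ((div_left_inj' hk).1 c))) ?_).mono
      fun a ha => ⟨ha.1, fun i => ?_⟩
    · push_cast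
      field_simp
      linear_combination h
    · rw [rk_pos_iff]
      have := good_scale (u := ((Q : ℚ) ^ (4 * i))⁻¹) (by positivity) (ha.2 (5 * i))
      convert this using 1
      push_cast
      field_simp
      ring

end Pool.Agent.Lib.MP_cfe824_nt.Old.SixCurves
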